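import Mathlib
import Pool.Agent.U606.SF.Main

/-!
# MP_54b048_an, Q1: a negative answer

The phase space is `X = K × ℝ/ℤ`, where `K` is the compact metrizable space of all `1`-Lipschitz
functions from the line to `[0,1]` (pointwise convergence). The flow translates the function and
rotates the circle, so it has no fixed point. Let `π` be a factor map separating two points
`(g₀, θ)` and `(g₁, θ)`. Take a continuous function on the factor which is `0` and `1` at their
images; up to an error less than `1/4` it depends only on the values of `g` on a bounded interval
`[-L, L]`. Glue convex combinations of `g₀` and `g₁` with arbitrary coefficients `t_0, ..., t_{k-1}`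
on the windows `[jN - L, jN + L]`. By the theorem of Poincare and Miranda the values of the function
at the times `N j` fill the cube `[1/4, 3/4]^k`, where `N` does not depend on `k`. So the factor has
infinite topological entropy.
-/

set_option autoImplicit false

open Set Dynamics Pool.Agent.U606.SF

namespace Pool.Agent.Results.MP_54b048_an.NoSmallEntropyFactor

universe u

/-- There are a flow `φ` without fixed points on a compact metrizable space `X` and a continuous
map `p` from `X` to the circle which carries `φ` to the rotation flow and whose fibres all have more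
than one point, such that every flow factor of `φ` which separates two points of the same fibre of
`p` has infinite topological entropy. -/
theorem result :
    ∃ (X : Type) (_ : TopologicalSpace X) (_ : CompactSpace X)
      (_ : TopologicalSpace.MetrizableSpace X) (φ : Flow ℝ X) (p : X → UnitAddCircle),
      (∀ x : X, ∃ t : ℝ, φ t x ≠ x) ∧
      Continuous p ∧ (∀ (t : ℝ) (x : X), p (φ t x) = p x + (t : UnitAddCircle)) ∧
      (∀ θ : UnitAddCircle, ∃ w w' : X, w ≠ w' ∧ p w = θ ∧ p w' = θ) ∧
      ∀ w w' : X, p w = p w' →
        ∀ (Y : Type u) [UniformSpace Y] [CompactSpace Y] [T2Space Y] (ψ : Flow ℝ Y) (π : X → Y),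
          Flow.IsSemiconjugacy π φ ψ → π w ≠ π w' → coverEntropy (ψ 1) univ = ⊤ := by
  refine ⟨X, inferInstance, inferInstance, inferInstance, flow, Prod.snd, no_fixed_point,
    continuous_snd, fun t x => rfl, fun θ => ?_, ?_⟩
  · refine ⟨(⟨fun _ => 0, fun _ => ⟨le_rfl, zero_le_one⟩, fun x y => by simp⟩, θ),
      (⟨fun _ => 1, fun _ => ⟨zero_le_one, le_rfl⟩, fun x y => by simp⟩, θ), fun h => ?_, rfl, rfl⟩
    have h1 := congrFun (congrArg (fun x : X => x.1.1) h) 0
    exact zero_ne_one h1
  · intro w w' hw Y _ _ _ ψ π hπ hne
    exact entropy_top hπ.cont (fun x => hπ.semiconj 1 x) hw hne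

end Pool.Agent.Results.MP_54b048_an.NoSmallEntropyFactor
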